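import Pool.Agent.H20.SM.TZ
import Pool.Agent.H65.CRG.All

/-!
Row BMz of the board sm_modules: the main term.
-/

set_option autoImplicit false

open NumberField NumberField.InfinitePlace Complex Filter Topology MeasureTheory

namespace Pool.Agent.H40.SM

open Pool.Agent.H28.RC Pool.Agent.H25.HK Pool.Agent.H37.CV
open Pool.Agent.H65.CRZ Pool.Agent.H65.CRG Pool.Agent.H23.CRZ Pool.Agent.H20.SM

theorem pf_BMz : T_BMz := by
  intro K _ _ _ E P c C₀ hE hP hc hC₀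
  obtain ⟨C₃, B, hC₃, hB, hG3⟩ := d_G3 (nrComplexPlaces K)
  refine ⟨B, hB, fun η hη => ?_⟩
  have hrho : 0 < rho K := dedekindZeta_residue_pos K
  -- constants
  set C₁ : ℝ := 1 + C₀ + C₀ ^ 2 with hC₁
  have hC₁0 : 0 < C₁ := by positivity
  set X₀ : ℝ := Real.exp (4 * P * C₀) with hX₀
  have hX₀0 : 0 < X₀ := Real.exp_pos _
  set D : ℝ := 1 + X₀ * (2 + C₁ / c) with hD
  have hD0 : 0 < D := by positivity
  set t : ℝ := min 1 (η / D) with ht
  have ht0 : 0 < t := lt_min one_pos (div_pos hη hD0)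
  have ht1 : t ≤ 1 := min_le_left _ _
  have htD : t * D ≤ η := by
    have := mul_le_mul_of_nonneg_right (min_le_right 1 (η / D)) hD0.le
    rwa [div_mul_cancel₀ _ hD0.ne'] at this
  -- the function `E` near `1`
  have hder : HasDerivAt E (deriv E 1) 1 := (hE.1 1).hasDerivAt
  obtain ⟨C₂, hC₂, hO⟩ := hder.isBigO_sub.exists_pos
  rw [Asymptotics.isBigOWith_iff] at hO
  obtain ⟨r₀, hr₀, hr⟩ := Metric.eventually_nhds_iff.1 hO
  have hEb : ∀ z : ℂ, ‖z‖ < r₀ → ‖E (1 + z) - rho K‖ ≤ C₂ * ‖z‖ := by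
    intro z hz
    have h4 := @hr (1 + z) (by rw [dist_eq_norm]; simpa using hz)
    rw [hE.2.2.1] at h4
    simpa using h4
  -- the error of the quadratic form
  set η' : ℝ := min 1 (c * t / 2) with hη'
  have hη'0 : 0 < η' := lt_min one_pos (by positivity)
  have hη'1 : η' ≤ 1 := min_le_left _ _
  have hη'2 : η' ≤ c * t / 2 := min_le_right _ _
  obtain ⟨M₀, hM₀, hSD⟩ := Pool.Agent.H65.CRG.Base.c_SD K C₀ η' hC₀ hη'0
  refine ⟨max M₀ (Real.exp (1 + 16 * C₀ + 4 * C₀ / r₀ + 2 * C₀ * C₃ / t +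
    2 * C₂ * (C₁ + 1) / (rho K * t))), fun M A hM hMA hAM α β u hα hβ hω => ?_⟩
  have hMM : M₀ ≤ M := (le_max_left _ _).trans hM
  have hM2 : 2 ≤ M := hM₀.trans hMM
  have hMpos : 0 < M := by linarith
  have hlog := (Real.le_log_iff_exp_le hMpos).2 ((le_max_right _ _).trans hM)
  set l : ℝ := Real.log M with hldef
  have hA0 : 0 < A := by linarith
  have p2 : 0 ≤ 2 * C₀ * C₃ / t := by positivity
  have p1 : 0 ≤ 4 * C₀ / r₀ := by positivity
  have p4 : 0 ≤ 2 * C₂ * (C₁ + 1) / (rho K * t) := by positivity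
  have a1 : 16 * C₀ ≤ l := by linarith
  have a2 : 4 * C₀ / r₀ ≤ l := by linarith
  have a3 : 2 * C₀ * C₃ / t ≤ l := by linarith
  have a5 : 2 * C₂ * (C₁ + 1) / (rho K * t) ≤ l := by linarith
  have hl0 : 0 < l := by linarith
  have hα' : ‖-α‖ ≤ C₀ / l := by rwa [norm_neg]
  have hβ' : ‖-β‖ ≤ C₀ / l := by rwa [norm_neg]
  have hω0 : 0 < ‖α + β‖ := lt_of_lt_of_le (by positivity) hω
  have hωne : α + β ≠ 0 := norm_pos_iff.1 hω0
  have hωl : c ≤ ‖α + β‖ * l := (div_le_iff₀ hl0).1 hω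
  have hωup : ‖α + β‖ ≤ 2 * C₀ / l := by
    refine (norm_add_le _ _).trans ?_
    have h4 := add_le_add hα hβ
    refine h4.trans (le_of_eq ?_)
    ring
  have hωr : ‖α + β‖ < r₀ := by
    refine lt_of_le_of_lt hωup ?_
    rw [div_lt_iff₀ hl0]
    rw [div_le_iff₀ hr₀] at a2
    have h4 : l * r₀ = r₀ * l := mul_comm _ _
    linarith
  -- the two terms
  have hF₁ := norm_FF_le α β l C₀ hl0 hα hβ
  have hF₂ := norm_FF_le (-α) (-β) l C₀ hl0 hα' hβ'
  have hsym : Pool.Agent.H65.CRZ.FF (-β) (-α) l = Pool.Agent.H65.CRZ.FF (-α) (-β) l := by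
    unfold Pool.Agent.H65.CRZ.FF
    ring
  have hS₁ := hSD M α β hMM hα hβ
  have hS₂ := hSD M (-β) (-α) hMM hβ' hα'
  rw [← hldef] at hS₁ hS₂
  rw [hsym] at hS₂
  have he₁ := hEb (α + β) hωr
  have he₂ : ‖E (1 - (α + β)) - rho K‖ ≤ C₂ * ‖α + β‖ := by
    have h4 := hEb (-(α + β)) (by rwa [norm_neg])
    rwa [norm_neg, ← sub_eq_add_neg] at h4
  have t₁ := one_term (rho K) l C₁ C₂ η' (α + β) (E (1 + (α + β))) (Sd K M α β)
    (Pool.Agent.H65.CRZ.FF α β l) hrho hl0 hωne hC₂.le hF₁ hS₁ he₁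
  have t₂ := one_term (rho K) l C₁ C₂ η' (α + β) (E (1 - (α + β))) (Sd K M (-β) (-α))
    (Pool.Agent.H65.CRZ.FF (-α) (-β) l) hrho hl0 hωne hC₂.le hF₂ hS₂ he₂
  have hδ : C₂ * (C₁ + η') / (rho K * l) + η' / (‖α + β‖ * l) ≤ t := by
    have h4 : C₂ * (C₁ + η') / (rho K * l) ≤ t / 2 := by
      rw [div_le_iff₀ (by positivity)]
      rw [div_le_iff₀ (by positivity)] at a5
      have h5 : C₂ * (C₁ + η') ≤ C₂ * (C₁ + 1) :=
        mul_le_mul_of_nonneg_left (by linarith) hC₂.le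
      have h6 : t / 2 * (rho K * l) = l * (rho K * t) / 2 := by ring
      rw [h6]
      linarith
    have h7 : η' / (‖α + β‖ * l) ≤ t / 2 := by
      have h8 : η' / (‖α + β‖ * l) ≤ η' / c := div_le_div_of_nonneg_left hη'0.le hc hωl
      have h9 : η' / c ≤ (c * t / 2) / c := div_le_div_of_nonneg_right hη'2 hc.le
      have h10 : (c * t / 2) / c = t / 2 := by field_simp
      linarith
    linarith
  -- the Gamma factors
  have hg := hG3 α β u (hα.trans (by rw [div_le_iff₀ hl0]; linarith))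
    (hβ.trans (by rw [div_le_iff₀ hl0]; linarith))
  set g : ℂ := (Gamma (1 - (1 / 2 + α + u * I)) * Gamma (1 - (1 / 2 + β - u * I)) /
      (Gamma (1 / 2 + α + u * I) * Gamma (1 / 2 + β - u * I))) ^ nrComplexPlaces K with hgdef
  have hU : (1 : ℝ) ≤ (1 + |u|) ^ B := Real.one_le_rpow (by linarith [abs_nonneg u]) hB
  have hg' : ‖g - 1‖ ≤ t * (1 + |u|) ^ B := by
    refine hg.trans (mul_le_mul_of_nonneg_right ?_ (by linarith))
    have h4 : ‖α‖ + ‖β‖ ≤ 2 * C₀ / l := by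
      have := add_le_add hα hβ
      refine this.trans (le_of_eq ?_)
      ring
    have h5 := mul_le_mul_of_nonneg_left h4 hC₃.le
    refine h5.trans ?_
    rw [← mul_div_assoc, div_le_iff₀ hl0]
    rw [div_le_iff₀ ht0] at a3
    linarith
  -- the exponential factor
  have hAC : ((A : ℝ) : ℂ) ≠ 0 := by exact_mod_cast hA0.ne'
  have hXf : Xn (nrComplexPlaces K) A (1 / 2 + α + u * I) (1 / 2 + β - u * I) =
      cexp (-(α + β) * ((2 * Real.log A : ℝ) : ℂ)) * g := by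
    unfold Xn
    rw [← hgdef]
    congr 1
    rw [Complex.cpow_def_of_ne_zero hAC, ← Complex.ofReal_log hA0.le]
    congr 1
    push_cast
    ring
  have hlA : 0 ≤ 2 * Real.log A := by
    have := Real.log_nonneg (by linarith : (1 : ℝ) ≤ A)
    linarith
  have hlA2 : 2 * Real.log A ≤ 2 * P * l := by
    have h4 := Real.log_le_log hA0 hAM
    rw [Real.log_rpow hMpos] at h4
    linarith
  have hxn : ‖cexp (-(α + β) * ((2 * Real.log A : ℝ) : ℂ))‖ ≤ X₀ := by
    rw [Complex.norm_exp, hX₀]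
    refine Real.exp_le_exp.2 ((Complex.re_le_norm _).trans ?_)
    rw [norm_mul, norm_neg, Complex.norm_real, Real.norm_eq_abs, abs_of_nonneg hlA]
    have h4 := mul_le_mul hωup hlA2 hlA (by positivity)
    refine h4.trans (le_of_eq ?_)
    field_simp
    ring
  have hfin := combine (α + β) (Pool.Agent.H65.CRZ.FF α β l) (Pool.Agent.H65.CRZ.FF (-α) (-β) l)
    _ _ g (cexp (-(α + β) * ((2 * Real.log A : ℝ) : ℂ))) l t ((1 + |u|) ^ B) X₀ C₁ c η hl0
    ht0.le ht1 hU hxn hc hωl hF₂ (t₁.trans hδ) (t₂.trans hδ) hg' hC₁0.le htD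
  rw [hXf]
  unfold Bm
  exact hfin

end Pool.Agent.H40.SM
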